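import Mathlib

set_option autoImplicit false

namespace Pool.Agent.H.MP_071fc1_co

open Finset

/-- depends only on the residue -/
def Per (φ : ℕ → ℝ) (m : ℕ) : Prop := ∀ s t, s ≡ t [MOD m] → φ s = φ t

/-- mean over one period -/
noncomputable def mn (m : ℕ) (φ : ℕ → ℝ) : ℝ := (∑ x ∈ range m, φ x) / m

/-- initial sums are linear up to a bounded error -/
def Apx (φ : ℕ → ℝ) (μ e : ℝ) : Prop := ∀ N : ℕ, |∑ x ∈ range N, φ x - N * μ| ≤ e

lemma crt_sum (φ ψ : ℕ → ℝ) (a b : ℕ) (ha : 0 < a) (hb : 0 < b) (hab : Nat.Coprime a b)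
    (h1 : Per φ a) (h2 : Per ψ b) :
    ∑ t ∈ range (a * b), φ t * ψ t = (∑ t ∈ range a, φ t) * ∑ t ∈ range b, ψ t := by
  rw [sum_mul_sum, ← sum_product']
  refine sum_bij (fun t _ => (t % a, t % b)) ?_ ?_ ?_ ?_
  · intro t _
    simp only [mem_range, mem_product]
    exact ⟨Nat.mod_lt _ ha, Nat.mod_lt _ hb⟩
  · intro s hs t ht h
    simp only [mem_range, Prod.mk.injEq] at hs ht h
    exact Nat.ModEq.eq_of_lt_of_lt ((Nat.modEq_and_modEq_iff_modEq_mul hab).mp ⟨h.1, h.2⟩) hs ht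
  · rintro ⟨u, v⟩ huv
    simp only [mem_range, mem_product] at huv
    obtain ⟨k, hk1, hk2⟩ := Nat.chineseRemainder hab u v
    have hm : k % (a * b) ≡ k [MOD a * b] := Nat.mod_modEq _ _
    have ha' : k % (a * b) ≡ u [MOD a] := (hm.of_dvd (dvd_mul_right _ _)).trans hk1
    have hb' : k % (a * b) ≡ v [MOD b] := (hm.of_dvd (dvd_mul_left _ _)).trans hk2
    refine ⟨k % (a * b), mem_range.mpr (Nat.mod_lt _ (Nat.mul_pos ha hb)), ?_⟩
    unfold Nat.ModEq at ha' hb'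
    rw [ha', hb', Nat.mod_eq_of_lt huv.1, Nat.mod_eq_of_lt huv.2]
  · intro t _
    rw [h1 _ _ (Nat.mod_modEq t a), h2 _ _ (Nat.mod_modEq t b)]

lemma crt_prod (φ : ℕ → ℕ → ℝ) (S : Finset ℕ) (hS : ∀ p ∈ S, p.Prime ∧ Per (φ p) p) :
    Per (fun x => ∏ p ∈ S, φ p x) (∏ p ∈ S, p) ∧
      mn (∏ p ∈ S, p) (fun x => ∏ p ∈ S, φ p x) = ∏ p ∈ S, mn p (φ p) := by
  refine ⟨fun s t h => prod_congr rfl fun p hp => (hS p hp).2 _ _ (h.of_dvd (dvd_prod_of_mem _ hp)),
    ?_⟩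
  induction S using Finset.induction_on with
  | empty => simp [mn]
  | insert q S hq ih =>
    have hS' : ∀ p ∈ S, p.Prime ∧ Per (φ p) p := fun p hp => hS p (mem_insert_of_mem hp)
    have hq' := hS q (mem_insert_self _ _)
    simp only [prod_insert hq]
    rw [← ih hS', mn, mn, mn, crt_sum (φ q) _ q _ hq'.1.pos (prod_pos fun p hp => (hS' p hp).1.pos)
      (Nat.Coprime.prod_right fun p hp => (Nat.coprime_primes hq'.1 (hS' p hp).1).mpr
        fun e => hq (e ▸ hp)) hq'.2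
      fun s t h => prod_congr rfl fun p hp => (hS' p hp).2 _ _ (h.of_dvd (dvd_prod_of_mem _ hp)),
      Nat.cast_mul, mul_div_mul_comm]

lemma per_apx (φ : ℕ → ℝ) (m : ℕ) (hm : 0 < m) (h : Per φ m) (K : ℝ) (hK : ∀ x, |φ x| ≤ K) :
    Apx φ (mn m φ) (2 * m * K) := by
  have hm' : (0 : ℝ) < m := by exact_mod_cast hm
  have hb : ∀ r : ℕ, |∑ x ∈ range r, φ x| ≤ r * K := fun r =>
    (abs_sum_le_sum_abs _ _).trans ((sum_le_card_nsmul _ _ K fun x _ => hK x).trans (by simp))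
  have hK0 : 0 ≤ K := (abs_nonneg _).trans (hK 0)
  have hμ : |mn m φ| ≤ K := by
    rw [mn, abs_div, abs_of_pos hm', div_le_iff₀ hm', mul_comm]
    exact hb m
  have key : ∀ k r : ℕ, ∑ x ∈ range (m * k + r), φ x = (m * k : ℕ) * mn m φ + ∑ x ∈ range r, φ x := by
    intro k r
    induction k with
    | zero => simp
    | succ k ih =>
      rw [show m * (k + 1) + r = m + (m * k + r) by ring, sum_range_add, sum_congr rfl
        fun x _ => h (m + x) x (by simp [Nat.ModEq]), ih, mn]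
      push_cast
      field_simp
      ring
  intro N
  have hr : ((N % m : ℕ) : ℝ) ≤ m := by exact_mod_cast (Nat.mod_lt N hm).le
  have e : (N : ℝ) = (m * (N / m) : ℕ) + (N % m : ℕ) := by exact_mod_cast (Nat.div_add_mod N m).symm
  conv_lhs => rw [e, ← Nat.div_add_mod N m, key, Nat.div_add_mod]
  have h1 := abs_le.mp (hb (N % m))
  have h2 := abs_le.mp hμ
  have h3 : (0 : ℝ) ≤ (N % m : ℕ) := Nat.cast_nonneg _
  rw [abs_le]
  constructor <;> nlinarith [mul_le_mul_of_nonneg_right hr hK0, mul_le_mul_of_nonneg_left h2.1 h3,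
    mul_le_mul_of_nonneg_left h2.2 h3]

lemma prod_apx (φ : ℕ → ℕ → ℝ) (S : Finset ℕ) (P : ℕ) (hP : 1 ≤ P) (h4 : S.card ≤ 4)
    (hS : ∀ p ∈ S, p.Prime ∧ p ≤ P ∧ Per (φ p) p ∧ ∀ x, |φ p x| ≤ (P : ℝ) ^ 2) :
    Apx (fun x => ∏ p ∈ S, φ p x) (∏ p ∈ S, mn p (φ p)) (2 * (P : ℝ) ^ 12) := by
  obtain ⟨h1, h2⟩ := crt_prod φ S fun p hp => ⟨(hS p hp).1, (hS p hp).2.2.1⟩
  have hP' : (1 : ℝ) ≤ P := by exact_mod_cast hP
  have h3 := per_apx _ _ (prod_pos fun p hp => (hS p hp).1.pos) h1 (((P : ℝ) ^ 2) ^ 4) fun x => by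
    rw [abs_prod]
    refine (prod_le_prod (fun _ _ => abs_nonneg _) fun p hp => (hS p hp).2.2.2 x).trans ?_
    rw [prod_const]
    exact pow_le_pow_right₀ (one_le_pow₀ hP') h4
  have h5 : ((∏ p ∈ S, p : ℕ) : ℝ) ≤ (P : ℝ) ^ 4 := by
    exact_mod_cast (prod_le_pow_card S (fun p => p) P fun p hp => (hS p hp).2.1).trans
      (Nat.pow_le_pow_right hP h4)
  rw [h2] at h3
  intro N
  refine (h3 N).trans ?_
  calc _ ≤ 2 * (P : ℝ) ^ 4 * ((P : ℝ) ^ 2) ^ 4 := by gcongr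
    _ = _ := by ring

lemma Apx.sum {ι : Type} (J : Finset ι) (φ : ι → ℕ → ℝ) (c μ : ι → ℝ) (e K : ℝ)
    (hc : ∀ i ∈ J, |c i| ≤ K) (h : ∀ i ∈ J, Apx (φ i) (μ i) e) :
    Apx (fun x => ∑ i ∈ J, c i * φ i x) (∑ i ∈ J, c i * μ i) (J.card * (K * e)) := by
  intro N
  rw [sum_comm, mul_sum, ← sum_sub_distrib]
  refine (abs_sum_le_sum_abs _ _).trans ((sum_le_card_nsmul _ _ (K * e) fun i hi => ?_).trans
    (by simp))
  rw [← mul_sum, mul_left_comm, ← mul_sub, abs_mul]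
  exact mul_le_mul (hc i hi) (h i hi N) (abs_nonneg _) ((abs_nonneg _).trans (hc i hi))

/-- weight of a subset in the product measure -/
noncomputable def wt (I : Finset ℕ) (f : ℕ → ℝ) (A : Finset ℕ) : ℝ :=
  (∏ i ∈ A, f i) * ∏ i ∈ I \ A, (1 - f i)

lemma wt_sub (I : Finset ℕ) (f : ℕ → ℝ) (S : Finset ℕ) (hS : S ⊆ I) :
    ∑ A ∈ I.powerset, wt I f A * (if S ⊆ A then 1 else 0) = ∏ i ∈ S, f i := by
  have := prod_add f (fun i => if i ∈ S then 0 else 1 - f i) I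
  rw [← prod_subset hS (fun i _ hi => by simp [hi]), prod_congr rfl
    (g := f) fun i hi => by simp [hi]] at this
  rw [this]
  refine sum_congr rfl fun A hA => ?_
  split_ifs with h
  · rw [mul_one, wt]
    congr 1
    exact prod_congr rfl fun i hi => by rw [if_neg fun e => (mem_sdiff.mp hi).2 (h e)]
  · obtain ⟨i, hi, hiA⟩ := not_subset.mp h
    rw [mul_zero, prod_eq_zero (s := I \ A) (mem_sdiff.mpr ⟨hS hi, hiA⟩) (by simp [hi]), mul_zero]

lemma second (I : Finset ℕ) (f : ℕ → ℝ) (hf : ∀ i, 0 ≤ f i ∧ f i ≤ 1) (X : Finset ℕ)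
    (S : ℕ → Finset ℕ) (hS : ∀ x ∈ X, S x ⊆ I)
    (hD : ∀ x ∈ X, (X.filter fun x' => ¬ Disjoint (S x) (S x')).card ≤ 3) :
    ∑ A ∈ I.powerset, wt I f A * (((X.filter fun x => S x ⊆ A).card : ℝ) -
      ∑ x ∈ X, ∏ i ∈ S x, f i) ^ 2 ≤ 3 * X.card := by
  have h1 := wt_sub I f ∅ (empty_subset _)
  simp only [empty_subset, if_true, mul_one, prod_empty] at h1
  have cov : ∀ x ∈ X, ∀ x' ∈ X, ∑ A ∈ I.powerset, wt I f A *
      (((if S x ⊆ A then 1 else 0) - ∏ i ∈ S x, f i) *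
        ((if S x' ⊆ A then 1 else 0) - ∏ i ∈ S x', f i)) ≤
      if ¬ Disjoint (S x) (S x') then 1 else 0 := by
    intro x hx x' hx'
    have e : ∀ A, wt I f A * (((if S x ⊆ A then 1 else 0) - ∏ i ∈ S x, f i) *
        ((if S x' ⊆ A then 1 else 0) - ∏ i ∈ S x', f i)) =
        wt I f A * (if S x ∪ S x' ⊆ A then 1 else 0) -
          wt I f A * (if S x ⊆ A then 1 else 0) * ∏ i ∈ S x', f i -
          wt I f A * (if S x' ⊆ A then 1 else 0) * ∏ i ∈ S x, f i +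
          wt I f A * ((∏ i ∈ S x, f i) * ∏ i ∈ S x', f i) := by
      intro A
      by_cases a1 : S x ⊆ A <;> by_cases a2 : S x' ⊆ A <;> simp [union_subset_iff, a1, a2] <;> ring
    simp only [e, sum_add_distrib, sum_sub_distrib, ← sum_mul, h1, wt_sub I f _ (hS x hx),
      wt_sub I f _ (hS x' hx'), wt_sub I f _ (union_subset (hS x hx) (hS x' hx'))]
    split_ifs with hd
    · rw [prod_union hd]
      linarith [mul_comm (∏ i ∈ S x, f i) (∏ i ∈ S x', f i)]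
    · have a1 := prod_le_one (s := S x ∪ S x') (fun i _ => (hf i).1) fun i _ => (hf i).2
      have a2 := mul_nonneg (prod_nonneg (s := S x) fun i _ => (hf i).1)
        (prod_nonneg (s := S x') fun i _ => (hf i).1)
      linarith [mul_comm (∏ i ∈ S x, f i) (∏ i ∈ S x', f i)]
  simp only [card_filter, Nat.cast_sum, Nat.cast_ite, Nat.cast_one, Nat.cast_zero,
    ← sum_sub_distrib, sq, sum_mul_sum]
  simp only [mul_sum]
  rw [sum_comm]
  refine (sum_le_card_nsmul _ _ 3 fun x hx => ?_).trans (by simp [mul_comm])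
  rw [sum_comm]
  refine (sum_le_sum fun x' hx' => cov x hx x' hx').trans ?_
  rw [sum_boole]
  exact_mod_cast hD x hx

lemma rounding (f : ℕ → ℝ) (hf : ∀ i, 0 ≤ f i ∧ f i ≤ 1) (N Y : ℕ) (hY : Y ^ 2 ≤ N) :
    ∃ A : Finset ℕ, ((((range N).filter fun x => x ∈ A).card : ℝ) - ∑ x ∈ range N, f x) ^ 2 ≤
      3 * N * (Y + 1) ∧ ∀ y ∈ Icc 1 Y,
      ((((range N).filter fun x => x ∈ A ∧ x + y ^ 2 ∈ A).card : ℝ) -
        ∑ x ∈ range N, f x * f (x + y ^ 2)) ^ 2 ≤ 3 * N * (Y + 1) := by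
  let I := range (2 * N)
  let Φ : ℕ → Finset ℕ → ℝ := fun y A => ((((range N).filter fun x => {x, x + y ^ 2} ⊆ A).card : ℝ)
    - ∑ x ∈ range N, ∏ i ∈ {x, x + y ^ 2}, f i) ^ 2
  have h1 := wt_sub I f ∅ (empty_subset _)
  simp only [empty_subset, if_true, mul_one, prod_empty] at h1
  have h2 : ∑ A ∈ I.powerset, wt I f A * ∑ y ∈ range (Y + 1), Φ y A ≤
      ∑ A ∈ I.powerset, wt I f A * (3 * N * (Y + 1)) := by
    rw [← sum_mul, h1, one_mul]
    simp only [mul_sum]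
    rw [sum_comm]
    refine (sum_le_card_nsmul _ _ (3 * N : ℝ) fun y hy => ?_).trans (by simp [mul_comm])
    have hy2 : y ^ 2 ≤ N := (Nat.pow_le_pow_left (by simpa [Nat.lt_succ_iff] using hy) 2).trans hY
    have := second I f hf (range N) (fun x => {x, x + y ^ 2}) (fun x hx i hi => by
      simp only [mem_insert, mem_singleton, mem_range, I] at hi hx ⊢
      omega) fun x _ => (card_le_card (t := {x, x + y ^ 2, x - y ^ 2}) fun x' hx' => by
        simp only [mem_filter, disjoint_insert_left, disjoint_singleton_left, mem_insert,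
          mem_singleton] at hx' ⊢
        omega).trans card_le_three
    simpa using this
  have hw : ∀ A, 0 ≤ wt I f A := fun A => mul_nonneg (prod_nonneg fun i _ => (hf i).1)
    (prod_nonneg fun i _ => sub_nonneg.mpr (hf i).2)
  obtain ⟨A, hA⟩ : ∃ A, ∑ y ∈ range (Y + 1), Φ y A ≤ 3 * N * (Y + 1) := by
    by_contra hc
    push Not at hc
    obtain ⟨B, hB, hB0⟩ : ∃ B ∈ I.powerset, wt I f B ≠ 0 := by
      by_contra hh
      push Not at hh
      rw [sum_eq_zero hh] at h1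
      exact zero_ne_one h1
    exact absurd h2 (not_le.mpr (sum_lt_sum (fun A _ => mul_le_mul_of_nonneg_left (hc A).le (hw A))
      ⟨B, hB, mul_lt_mul_of_pos_left (hc B) ((hw B).lt_of_ne' hB0)⟩))
  have h3 : ∀ y ∈ range (Y + 1), Φ y A ≤ 3 * N * (Y + 1) := fun y hy =>
    (single_le_sum (f := fun y => Φ y A) (fun y _ => sq_nonneg _) hy).trans hA
  refine ⟨A, by simpa [Φ] using h3 0 (by simp), fun y hy => ?_⟩
  rw [mem_Icc] at hy
  have := h3 y (mem_range.mpr (by omega))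
  have hy0 : ∀ x, x ≠ x + y ^ 2 := fun x => by
    have : 0 < y ^ 2 := pow_pos hy.1 2
    omega
  simpa only [Φ, insert_subset_iff, singleton_subset_iff, prod_pair (hy0 _)] using this

end Pool.Agent.H.MP_071fc1_co
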