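import Mathlib
import Pool.Agent.H.MP_071fc1_co.A

set_option autoImplicit false

namespace Pool.Agent.H.MP_071fc1_co

open Finset

/-- the two local functions -/
noncomputable def al (σ : Bool) (p x : ℕ) : ℝ :=
  if σ then (if p ∣ x then (p : ℝ) else 0) - 1 else (jacobiSym x p : ℤ)

/-- the same on residues -/
noncomputable def zl (σ : Bool) (p : ℕ) [Fact p.Prime] (z : ZMod p) : ℝ :=
  if σ then (if z = 0 then (p : ℝ) else 0) - 1 else (quadraticChar (ZMod p) z : ℤ)

lemma al_eq (σ : Bool) (p : ℕ) [Fact p.Prime] (x : ℕ) : al σ p x = zl σ p x := by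
  cases σ
  · simp [al, zl, ← jacobiSym.legendreSym.to_jacobiSym, legendreSym]
  · simp [al, zl, ZMod.natCast_eq_zero_iff]

lemma sum_zmod (p : ℕ) [NeZero p] (F : ZMod p → ℝ) : ∑ x ∈ range p, F x = ∑ z, F z :=
  sum_nbij' (fun x => (x : ZMod p)) ZMod.val (by simp) (by simp [ZMod.val_lt])
    (fun x hx => ZMod.val_cast_of_lt (by simpa using hx)) (by simp) (by simp)

lemma al_per (σ : Bool) (p : ℕ) (hp : p.Prime) (h : ℕ) : Per (fun x => al σ p (x + h)) p := by
  have := Fact.mk hp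
  intro s t e
  simp only [al_eq, Nat.cast_add, (ZMod.natCast_eq_natCast_iff _ _ _).mpr e]

lemma al_abs (σ : Bool) (p : ℕ) (hp : p.Prime) (x : ℕ) : |al σ p x| ≤ p := by
  have h1 : (1 : ℝ) ≤ p := by exact_mod_cast hp.one_le
  cases σ
  · rcases jacobiSym.trichotomy x p with h | h | h <;> simp [al, h, h1]
  · simp only [al, if_true]
    split_ifs
    · rw [abs_of_nonneg (by linarith)]
      linarith
    · simpa using h1

section
variable (p : ℕ) [Fact p.Prime]

lemma sum_chi (h2 : p ≠ 2) : ∑ z : ZMod p, ((quadraticChar (ZMod p) z : ℤ) : ℝ) = 0 := by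
  exact_mod_cast quadraticChar_sum_zero (F := ZMod p) (by rwa [ZMod.ringChar_zmod_n])

lemma sum_zl (h2 : p ≠ 2) (σ : Bool) (h : ZMod p) : ∑ z, zl σ p (z + h) = 0 := by
  rw [show ∑ z, zl σ p (z + h) = _ from Equiv.sum_comp (Equiv.addRight h) (zl σ p)]
  cases σ
  · simpa [zl] using sum_chi p h2
  · simp [zl]

lemma sum_tl (h2 : p ≠ 2) (τ : Bool) (h : ZMod p) :
    ∑ z, zl true p z * zl τ p (z + h) = p * zl τ p h := by
  have : ∀ z, zl true p z * zl τ p (z + h) = (if z = 0 then p * zl τ p h else 0) - zl τ p (z + h) := by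
    intro z
    rw [show zl true p z = (if z = 0 then (p : ℝ) else 0) - 1 from rfl]
    by_cases e : z = 0 <;> simp [e, sub_mul]
  simp only [this, sum_sub_distrib, sum_zl p h2, sum_ite_eq', mem_univ, if_true, sub_zero]

lemma sum_ft (h2 : p ≠ 2) (h : ZMod p) :
    ∑ z, zl false p z * zl true p (z + h) = p * (zl false p (-1) * zl false p h) := by
  have := sum_tl p h2 false (-h)
  rw [← Equiv.sum_comp (Equiv.addRight h)] at this
  simp only [Equiv.coe_addRight, add_neg_cancel_right] at this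
  rw [sum_congr rfl fun z _ => mul_comm _ _, this, ← neg_one_mul h]
  simp only [zl, map_mul, Bool.false_eq_true, if_false, Int.cast_mul]

lemma sum_ff (h2 : p ≠ 2) (h : ZMod p) :
    ∑ z, zl false p z * zl false p (z + h) = zl true p h := by
  by_cases e : h = 0
  · subst e
    have : ∀ z : ZMod p, zl false p z * zl false p (z + 0) = 1 - if z = 0 then 1 else 0 := by
      intro z
      by_cases e : z = 0
      · simp [zl, e]
      · simp only [zl, add_zero, e, if_false, sub_zero, Bool.false_eq_true]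
        exact_mod_cast (sq _).symm.trans (quadraticChar_sq_one e)
    simp only [this, sum_sub_distrib]
    simp [zl]
  · have : ∀ z : ZMod p, zl false p z * zl false p (z + h) =
        zl false p (h * z⁻¹ + 1) - if z = 0 then 1 else 0 := by
      intro z
      by_cases e : z = 0
      · simp [zl, e]
      · simp only [zl, e, if_false, sub_zero, Bool.false_eq_true]
        rw [← Int.cast_mul, ← map_mul, show z * (z + h) = z ^ 2 * (h * z⁻¹ + 1) by field_simp; ring,
          map_mul, quadraticChar_sq_one' e, one_mul]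
    simp only [this, sum_sub_distrib]
    have h3 := ((Equiv.inv (ZMod p)).trans (Equiv.mulLeft₀ h e)).sum_comp
      fun w => zl false p (w + 1)
    rw [sum_zl p h2] at h3
    simp only [Equiv.trans_apply, Equiv.inv_apply, Equiv.mulLeft₀_apply] at h3
    rw [h3]
    simp [zl, e]

end

lemma mn_al (σ : Bool) (p : ℕ) (hp : p.Prime) (h2 : p ≠ 2) (h : ℕ) :
    mn p (fun x => al σ p (x + h)) = 0 := by
  have := Fact.mk hp
  simp only [mn, al_eq, Nat.cast_add]
  rw [sum_zmod p fun z => zl σ p (z + h), sum_zl p h2, zero_div]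

/-- local correlations -/
noncomputable def cor (σ τ : Bool) (p h : ℕ) : ℝ :=
  if σ then al τ p h else if τ then (jacobiSym (-1) p : ℤ) * al false p h else al true p h / p

lemma mn_cor (σ τ : Bool) (p : ℕ) (hp : p.Prime) (h2 : p ≠ 2) (h : ℕ) :
    mn p (fun x => al σ p x * al τ p (x + h)) = cor σ τ p h := by
  have := Fact.mk hp
  have h0 : (p : ℝ) ≠ 0 := by exact_mod_cast hp.ne_zero
  simp only [mn, cor, al_eq, Nat.cast_add]
  rw [sum_zmod p fun z => zl σ p z * zl τ p (z + h)]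
  cases σ
  · cases τ
    · simp [sum_ff p h2]
    · rw [sum_ft p h2, mul_div_cancel_left₀ _ h0]
      simp [zl, ← jacobiSym.legendreSym.to_jacobiSym, legendreSym]
  · rw [sum_tl p h2, mul_div_cancel_left₀ _ h0]
    simp

lemma apx_one (P : ℕ) (hP : 1 ≤ P) (q : Finset ℕ) (hq : q.card = 2)
    (hS : ∀ p ∈ q, p.Prime ∧ p ≠ 2 ∧ p ≤ P) (σ : Bool) (h : ℕ) :
    Apx (fun x => ∏ p ∈ q, al σ p (x + h)) 0 (2 * (P : ℝ) ^ 12) := by
  have hP' : (1 : ℝ) ≤ P := by exact_mod_cast hP
  have := prod_apx (fun p x => al σ p (x + h)) q P hP (by omega) fun p hp =>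
    ⟨(hS p hp).1, (hS p hp).2.2, al_per σ p (hS p hp).1 h, fun x => (al_abs σ p (hS p hp).1 _).trans
      ((Nat.cast_le.mpr (hS p hp).2.2).trans (by nlinarith))⟩
  obtain ⟨p, hp⟩ := card_pos.mp (show 0 < q.card by omega)
  rwa [prod_eq_zero hp (mn_al σ p (hS p hp).1 (hS p hp).2.1 h)] at this

lemma apx_two (P : ℕ) (hP : 1 ≤ P) (q q' : Finset ℕ) (hq : q.card = 2) (hq' : q'.card = 2)
    (hS : ∀ p ∈ q ∪ q', p.Prime ∧ p ≠ 2 ∧ p ≤ P) (σ τ : Bool) (h : ℕ) :
    Apx (fun x => (∏ p ∈ q, al σ p x) * ∏ p ∈ q', al τ p (x + h))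
      (if q = q' then ∏ p ∈ q, cor σ τ p h else 0) (2 * (P : ℝ) ^ 12) := by
  have hP' : (1 : ℝ) ≤ P := by exact_mod_cast hP
  have hb : ∀ (c : Prop) [Decidable c] (σ : Bool), ∀ p ∈ q ∪ q', ∀ x,
      |if c then al σ p x else 1| ≤ P := fun c _ σ p hp x => by
    split_ifs
    · exact (al_abs σ p (hS p hp).1 _).trans (Nat.cast_le.mpr (hS p hp).2.2)
    · simpa using hP'
  have := prod_apx (fun p x => (if p ∈ q then al σ p x else 1) *
    (if p ∈ q' then al τ p (x + h) else 1)) (q ∪ q') P hP ((card_union_le _ _).trans (by omega))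
    fun p hp => ⟨(hS p hp).1, (hS p hp).2.2, fun s t e => by
      have a1 := al_per σ p (hS p hp).1 0 s t e
      have a2 := al_per τ p (hS p hp).1 h s t e
      simp only [add_zero] at a1 a2
      simp only [a1, a2], fun x => by
        rw [abs_mul, sq]
        exact mul_le_mul (hb _ _ p hp _) (hb _ _ p hp _) (abs_nonneg _) (by linarith)⟩
  simp only [prod_mul_distrib, prod_ite_mem, union_inter_cancel_left, union_inter_cancel_right]
    at this
  convert this using 1
  split_ifs with e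
  · subst e
    rw [union_self] at hS ⊢
    exact prod_congr rfl fun p hp => by
      simp only [hp, if_true, mn_cor σ τ p (hS p hp).1 (hS p hp).2.1]
  · obtain ⟨p, hp, hp'⟩ := not_subset.mp fun hh => e (eq_of_subset_of_card_le hh (by omega))
    have hu := mem_union_left q' hp
    refine (prod_eq_zero hu ?_).symm
    simpa [hp, hp'] using mn_al σ p (hS p hu).1 (hS p hu).2.1 0

/-- coefficients -/
def kap (T : ℝ) (σ : Bool) : ℝ := if σ then 1 else -T

lemma pair_le (P T : ℕ) (hT : 2 ≤ T) (y : ℕ) (q : Finset ℕ) (hq : q.card = 2) (D S : Finset ℕ)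
    (hqS : q ⊆ S) (hD : ∀ p ∈ S, p ∈ D ↔ p ∣ y) (r : ℕ)
    (hS : ∀ p ∈ S, p.Prime ∧ T < p ∧ p ≤ P ∧ p % 4 = r) :
    ∑ σ, ∑ τ, kap T σ * kap T τ * ∏ p ∈ q, cor σ τ p (y ^ 2) ≤
      2 * (P : ℝ) ^ 2 * (if q ⊆ D then 1 else 0) - T * (if q ⊆ S \ D then 1 else 0) := by
  obtain ⟨a, b, hab, rfl⟩ := card_eq_two.mp hq
  have ha : a ∈ S := hqS (by simp)
  have hb : b ∈ S := hqS (by simp)
  have loc : ∀ p ∈ S, (p ∣ y → al true p (y ^ 2) = p - 1 ∧ al false p (y ^ 2) = 0) ∧
      (¬ p ∣ y → al true p (y ^ 2) = -1 ∧ al false p (y ^ 2) = 1) := by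
    intro p hp
    have h1 := (hS p hp).1
    have := Fact.mk h1
    refine ⟨fun h => ?_, fun h => ?_⟩
    · simp [al_eq, zl, (ZMod.natCast_eq_zero_iff _ _).mpr h]
    · have h2 := mt (ZMod.natCast_eq_zero_iff _ _).mp h
      simp [al_eq, zl, h2, quadraticChar_sq_one' h2]
  have hodd : ∀ p ∈ S, Odd p := fun p hp => (hS p hp).1.odd_of_ne_two (by have := (hS p hp).2.1; omega)
  have hs : ((jacobiSym (-1) a : ℤ) : ℝ) * (jacobiSym (-1) b : ℤ) = 1 := by
    rw [jacobiSym.at_neg_one (hodd a ha), jacobiSym.at_neg_one (hodd b hb), ZMod.χ₄_nat_mod_four a,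
      ZMod.χ₄_nat_mod_four b, (hS b hb).2.2.2, ← (hS a ha).2.2.2]
    have : a % 4 = 1 ∨ a % 4 = 3 := by have := Nat.odd_iff.mp (hodd a ha); omega
    rcases this with e | e <;> rw [e] <;> norm_num
  have hT' : (2 : ℝ) ≤ T := by exact_mod_cast hT
  have a1 : (T : ℝ) < a := by exact_mod_cast (hS a ha).2.1
  have b1 : (T : ℝ) < b := by exact_mod_cast (hS b hb).2.1
  have a2 : (a : ℝ) ≤ P := by exact_mod_cast (hS a ha).2.2.1
  have b2 : (b : ℝ) ≤ P := by exact_mod_cast (hS b hb).2.2.1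
  have e : ∑ σ, ∑ τ, kap T σ * kap T τ * ∏ p ∈ {a, b}, cor σ τ p (y ^ 2) =
      al true a (y ^ 2) * al true b (y ^ 2) * (1 + T / a * (T / b)) -
        2 * T * (al false a (y ^ 2) * al false b (y ^ 2)) := by
    simp only [Fintype.sum_bool, kap, cor, prod_pair hab, if_true, if_false, Bool.false_eq_true]
    linear_combination (-(T : ℝ) * (al false a (y ^ 2) * al false b (y ^ 2))) * hs
  have c0 : (0 : ℝ) ≤ T / a * (T / b) := by positivity
  have c1 : (T : ℝ) / a * (T / b) ≤ 1 := mul_le_one₀ ((div_le_one (by linarith)).mpr a1.le)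
    (by positivity) ((div_le_one (by linarith)).mpr b1.le)
  rw [e]
  simp only [insert_subset_iff, singleton_subset_iff, mem_sdiff, ha, hb, true_and, hD a ha, hD b hb]
  by_cases ya : a ∣ y <;> by_cases yb : b ∣ y
  · rw [((loc a ha).1 ya).1, ((loc a ha).1 ya).2, ((loc b hb).1 yb).1]
    simp only [ya, yb, and_self, if_true, not_true, if_false]
    have : ((a : ℝ) - 1) * (b - 1) ≤ P * P := mul_le_mul (by linarith) (by linarith) (by linarith)
      (by linarith)
    nlinarith [mul_nonneg (show (0 : ℝ) ≤ a - 1 by linarith) (show (0 : ℝ) ≤ b - 1 by linarith)]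
  · rw [((loc a ha).1 ya).1, ((loc a ha).1 ya).2, ((loc b hb).2 yb).1]
    simp only [ya, yb, and_false, not_true, false_and, if_false]
    nlinarith [mul_nonneg (show (0 : ℝ) ≤ a - 1 by linarith) c0]
  · rw [((loc a ha).2 ya).1, ((loc b hb).1 yb).2, ((loc b hb).1 yb).1]
    simp only [ya, yb, and_false, not_true, false_and, if_false]
    nlinarith [mul_nonneg (show (0 : ℝ) ≤ b - 1 by linarith) c0]
  · rw [((loc a ha).2 ya).1, ((loc a ha).2 ya).2, ((loc b hb).2 yb).2, ((loc b hb).2 yb).1]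
    simp only [ya, yb, and_self, not_false_iff, if_true, if_false]
    linarith

end Pool.Agent.H.MP_071fc1_co
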