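import Mathlib
import Pool.Agent.H.MP_071fc1_co.B

set_option autoImplicit false

namespace Pool.Agent.H.MP_071fc1_co

open Finset

/-- index set -/
def JJ (S : Finset ℕ) : Finset (Finset ℕ × Bool) := S.powersetCard 2 ×ˢ univ

/-- the perturbation -/
noncomputable def GG (S : Finset ℕ) (T x : ℕ) : ℝ := ∑ j ∈ JJ S, kap T j.2 * ∏ p ∈ j.1, al j.2 p x

section
variable {S : Finset ℕ} {P T r : ℕ} (hT : 2 ≤ T) (hTP : T ≤ P)
  (hS : ∀ p ∈ S, p.Prime ∧ T < p ∧ p ≤ P ∧ p % 4 = r)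
include hT hTP hS

omit hT hTP in
lemma card_JJ : ((JJ S).card : ℝ) ≤ 2 * (P : ℝ) ^ 2 := by
  have h1 : S.card ≤ P := (card_le_card (t := Icc 1 P) fun p hp =>
    mem_Icc.mpr ⟨(hS p hp).1.one_le, (hS p hp).2.2.1⟩).trans (by simp)
  have h2 := (Nat.choose_le_pow S.card 2).trans (Nat.pow_le_pow_left h1 2)
  rw [JJ, card_product, card_powersetCard, card_univ, Fintype.card_bool]
  exact_mod_cast (by omega : S.card.choose 2 * 2 ≤ 2 * P ^ 2)

omit hS in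
lemma kap_abs (σ : Bool) : |kap T σ| ≤ P := by
  have h1 : (2 : ℝ) ≤ T := by exact_mod_cast hT
  have h2 : (T : ℝ) ≤ P := by exact_mod_cast hTP
  cases σ <;> simp [kap] <;> linarith

omit hTP in
lemma mem_JJ (j : Finset ℕ × Bool) (hj : j ∈ JJ S) :
    j.1.card = 2 ∧ ∀ p ∈ j.1, p.Prime ∧ p ≠ 2 ∧ p ≤ P := by
  have := mem_powersetCard.mp (mem_product.mp hj).1
  exact ⟨this.2, fun p hp => ⟨(hS p (this.1 hp)).1, by have := (hS p (this.1 hp)).2.1; omega,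
    (hS p (this.1 hp)).2.2.1⟩⟩

lemma GG_abs (x : ℕ) : |GG S T x| ≤ 2 * (P : ℝ) ^ 5 := by
  refine (abs_sum_le_sum_abs _ _).trans ((sum_le_card_nsmul _ _ ((P : ℝ) * P ^ 2)
    fun j hj => ?_).trans ?_)
  · obtain ⟨h1, h2⟩ := mem_JJ hT hS j hj
    rw [abs_mul, abs_prod, ← h1, ← prod_const]
    exact mul_le_mul (kap_abs hT hTP _) (prod_le_prod (fun _ _ => abs_nonneg _) fun p hp =>
      (al_abs _ p (h2 p hp).1 x).trans (Nat.cast_le.mpr (h2 p hp).2.2))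
      (prod_nonneg fun _ _ => abs_nonneg _) (Nat.cast_nonneg _)
  · rw [nsmul_eq_mul]
    calc _ ≤ 2 * (P : ℝ) ^ 2 * (P * P ^ 2) := by gcongr; exact card_JJ hS
      _ = _ := by ring

lemma apx_G (h N : ℕ) : |∑ x ∈ range N, GG S T (x + h)| ≤ 4 * (P : ℝ) ^ 15 := by
  have := Apx.sum (JJ S) (fun j x => ∏ p ∈ j.1, al j.2 p (x + h)) (fun j => kap T j.2) (fun _ => 0)
    _ P (fun j _ => kap_abs hT hTP _) (fun j hj => apx_one P (by omega) j.1 (mem_JJ hT hS j hj).1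
      (mem_JJ hT hS j hj).2 j.2 h) N
  simp only [mul_zero, sum_const_zero, sub_zero] at this
  refine this.trans ?_
  calc _ ≤ 2 * (P : ℝ) ^ 2 * (P * (2 * P ^ 12)) := by gcongr; exact card_JJ hS
    _ = _ := by ring

lemma apx_GG (y N : ℕ) (hy : 2 * P ^ 2 * (S.filter (· ∣ y)).card.choose 2 + 1 ≤
    T * (S.card - (S.filter (· ∣ y)).card).choose 2) :
    ∑ x ∈ range N, GG S T x * GG S T (x + y ^ 2) ≤ 8 * (P : ℝ) ^ 18 - N := by
  have := Apx.sum (JJ S ×ˢ JJ S)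
    (fun j x => (∏ p ∈ j.1.1, al j.1.2 p x) * ∏ p ∈ j.2.1, al j.2.2 p (x + y ^ 2))
    (fun j => kap T j.1.2 * kap T j.2.2) _ _ (P * P) (fun j _ => by
      rw [abs_mul]
      exact mul_le_mul (kap_abs hT hTP _) (kap_abs hT hTP _) (abs_nonneg _) (Nat.cast_nonneg _))
    (fun j hj => apx_two P (by omega) j.1.1 j.2.1 (mem_JJ hT hS _ (mem_product.mp hj).1).1
      (mem_JJ hT hS _ (mem_product.mp hj).2).1 (fun p hp => (mem_union.mp hp).elim
        ((mem_JJ hT hS _ (mem_product.mp hj).1).2 p) ((mem_JJ hT hS _ (mem_product.mp hj).2).2 p))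
      j.1.2 j.2.2 (y ^ 2)) N
  have e1 : ∀ x, ∑ j ∈ JJ S ×ˢ JJ S, kap T j.1.2 * kap T j.2.2 *
      ((∏ p ∈ j.1.1, al j.1.2 p x) * ∏ p ∈ j.2.1, al j.2.2 p (x + y ^ 2)) =
      GG S T x * GG S T (x + y ^ 2) := fun x => by
    rw [GG, GG, sum_mul_sum, sum_product]
    exact sum_congr rfl fun _ _ => sum_congr rfl fun _ _ => by ring
  have e2 : ∑ j ∈ JJ S ×ˢ JJ S, kap T j.1.2 * kap T j.2.2 *
      (if j.1.1 = j.2.1 then ∏ p ∈ j.1.1, cor j.1.2 j.2.2 p (y ^ 2) else 0) ≤ -1 := by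
    have e3 : ∀ D ⊆ S, ∑ q ∈ S.powersetCard 2, (if q ⊆ D then (1 : ℝ) else 0) =
        D.card.choose 2 := fun D hD => by
      rw [sum_boole, ← card_powersetCard]
      congr 2
      ext q
      simp only [mem_filter, mem_powersetCard]
      exact ⟨fun h => ⟨h.2, h.1.2⟩, fun h => ⟨⟨h.1.trans hD, h.2⟩, h.1⟩⟩
    calc _ = ∑ q ∈ S.powersetCard 2, ∑ σ, ∑ τ, kap T σ * kap T τ * ∏ p ∈ q, cor σ τ p (y ^ 2) := by
          simp only [JJ, sum_product, mul_ite, mul_zero]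
          refine sum_congr rfl fun q hq => sum_congr rfl fun σ _ => ?_
          rw [sum_comm]
          simp only [sum_ite_eq, hq, if_true]
      _ ≤ _ := sum_le_sum fun q hq => pair_le P T hT y q (mem_powersetCard.mp hq).2
          (S.filter (· ∣ y)) S (mem_powersetCard.mp hq).1 (fun p hp => by simp [hp]) r hS
      _ ≤ _ := by
          rw [sum_sub_distrib, ← mul_sum, ← mul_sum, e3 _ (filter_subset _ _), e3 _ sdiff_subset,
            card_sdiff_of_subset (filter_subset _ _)]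
          have : 2 * (P : ℝ) ^ 2 * (S.filter (· ∣ y)).card.choose 2 + 1 ≤
            T * (S.card - (S.filter (· ∣ y)).card).choose 2 := by exact_mod_cast hy
          linarith
  simp only [e1, card_product, Nat.cast_mul] at this
  have h1 := card_JJ hS
  have h2 : ((JJ S).card : ℝ) * (JJ S).card * (P * P * (2 * P ^ 12)) ≤
    2 * (P : ℝ) ^ 2 * (2 * (P : ℝ) ^ 2) * (P * P * (2 * P ^ 12)) := by gcongr
  have h3 := mul_le_mul_of_nonneg_left e2 (Nat.cast_nonneg N)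
  have h4 := (abs_le.mp this).2
  nlinarith

lemma core (n : ℕ) (hn : 704 * P ^ 28 ≤ n) (hy : ∀ y ∈ Icc 1 (n ^ 2),
    2 * P ^ 2 * (S.filter (· ∣ y)).card.choose 2 + 1 ≤
      T * (S.card - (S.filter (· ∣ y)).card).choose 2) (ε : ℝ) (hε : ε * (32 * (P : ℝ) ^ 10) < 1) :
    ∃ (A : Finset ℕ) (c : ℝ), 0 < c ∧
      c + ε * (n ^ 4 : ℕ) + (n ^ 4 : ℕ) / 4 ≤ ((range (n ^ 4)).filter fun x => x ∈ A).card ∧
      ∀ y ∈ Icc 1 (n ^ 2), (((range (n ^ 4)).filter fun x => x ∈ A ∧ x + y ^ 2 ∈ A).card : ℝ) < c := by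
  have hP : (2 : ℝ) ≤ P := by exact_mod_cast hT.trans hTP
  have hn' : 704 * (P : ℝ) ^ 28 ≤ n := by exact_mod_cast hn
  obtain ⟨η, hη⟩ : ∃ η : ℝ, η = 1 / (4 * (P : ℝ) ^ 5) := ⟨_, rfl⟩
  have h5 : (1 : ℝ) ≤ (P : ℝ) ^ 5 := one_le_pow₀ (by linarith)
  have η0 : 0 < η := by rw [hη]; positivity
  have η1 : η * (4 * (P : ℝ) ^ 5) = 1 := by rw [hη]; field_simp
  have η2 : η ≤ 1 / 4 := by nlinarith
  obtain ⟨A, h1, h2⟩ := rounding (fun x => 1 / 2 + η * GG S T x) (fun x => by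
    have := abs_le.mp (GG_abs hT hTP hS x)
    constructor <;> nlinarith) (n ^ 4) (n ^ 2) (by rw [← pow_mul])
  have n1 : (1 : ℝ) ≤ n := by nlinarith [one_le_pow₀ (n := 28) (show (1 : ℝ) ≤ P by linarith)]
  have hd : 3 * ((n ^ 4 : ℕ) : ℝ) * (((n ^ 2 : ℕ) : ℝ) + 1) ≤ (3 * (n : ℝ) ^ 3) ^ 2 := by
    push_cast
    nlinarith [one_le_pow₀ (n := 2) n1, pow_pos (show (0 : ℝ) < n by linarith) 4]
  have p1 : (P : ℝ) ^ 15 ≤ P ^ 18 := pow_le_pow_right₀ (by linarith) (by norm_num)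
  have p2 : (1 : ℝ) ≤ P ^ 18 := one_le_pow₀ (by linarith)
  have n3 : (1 : ℝ) ≤ (n : ℝ) ^ 3 := one_le_pow₀ n1
  obtain ⟨N, hN⟩ : ∃ N : ℝ, N = (n ^ 4 : ℕ) := ⟨_, rfl⟩
  have N0 : 0 < N := by rw [hN]; push_cast; positivity
  have key : 16 * (P : ℝ) ^ 18 + 6 * (n : ℝ) ^ 3 + ε * N < η ^ 2 * N := by
    have a1 : η ^ 2 * (16 * (P : ℝ) ^ 10) = 1 := by rw [← one_pow 2, ← η1]; ring
    have a2 : ε < η ^ 2 / 2 := by
      by_contra hc
      nlinarith [mul_le_mul_of_nonneg_right (not_lt.mp hc) (show (0 : ℝ) ≤ P ^ 10 by positivity)]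
    have a3 : 22 * (P : ℝ) ^ 18 ≤ η ^ 2 / 2 * n := by
      calc 22 * (P : ℝ) ^ 18 = η ^ 2 / 2 * (704 * P ^ 28) := by linear_combination -22 * P ^ 18 * a1
        _ ≤ _ := by gcongr
    have a4 : 22 * (P : ℝ) ^ 18 * n ^ 3 ≤ η ^ 2 / 2 * N := by
      calc _ ≤ η ^ 2 / 2 * n * n ^ 3 := by gcongr
        _ = _ := by rw [hN]; push_cast; ring
    nlinarith [mul_lt_mul_of_pos_right a2 N0]
  have g0 := abs_le.mp (apx_G hT hTP hS 0 (n ^ 4))
  simp only [add_zero] at g0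
  have p3 : (0 : ℝ) ≤ P ^ 15 := by positivity
  refine ⟨A, N / 4 - 4 * (P : ℝ) ^ 15 - 3 * (n : ℝ) ^ 3 - ε * N, ?_, ?_, fun y hyy => ?_⟩
  · have := mul_le_mul_of_nonneg_right (show η ^ 2 ≤ 1 / 4 by nlinarith) N0.le
    linarith
  · have := (abs_le_of_sq_le_sq' (h1.trans hd) (by positivity)).1
    rw [sum_add_distrib, ← mul_sum, sum_const, card_range, nsmul_eq_mul, ← hN] at this
    rw [← hN]
    nlinarith
  · have := (abs_le_of_sq_le_sq' ((h2 y hyy).trans hd) (by positivity)).2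
    have g1 := abs_le.mp (apx_G hT hTP hS (y ^ 2) (n ^ 4))
    have g2 := apx_GG hT hTP hS y (n ^ 4) (hy y hyy)
    have e : ∀ x, (1 / 2 + η * GG S T x) * (1 / 2 + η * GG S T (x + y ^ 2)) = 1 / 4 +
        η / 2 * GG S T x + η / 2 * GG S T (x + y ^ 2) + η ^ 2 * (GG S T x * GG S T (x + y ^ 2)) :=
      fun x => by ring
    simp only [e, sum_add_distrib, ← mul_sum, sum_const, card_range, nsmul_eq_mul, ← hN] at this g2
    have b1 := mul_le_mul_of_nonneg_left g2 (sq_nonneg η)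
    have b2 : η ^ 2 ≤ 1 := by nlinarith
    have b3 := mul_le_mul_of_nonneg_left g0.2 η0.le
    have b4 := mul_le_mul_of_nonneg_left g1.2 η0.le
    nlinarith

end

lemma many_primes (t : ℕ) (ht : 10 ^ 6 ≤ t) : ∃ (S : Finset ℕ) (r : ℕ), t ^ 7 ≤ S.card ∧
    ∀ p ∈ S, p.Prime ∧ t ^ 7 < p ∧ p ≤ t ^ 8 ∧ p % 4 = r := by
  have ht' : (10 : ℝ) ^ 6 ≤ t := by exact_mod_cast ht
  have hπ : 5 * t ^ 7 + 1 ≤ Nat.primeCounting (t ^ 8) := by
    have h := Chebyshev.pi_ge (t ^ 8)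
    have s0 : (1000 : ℝ) ≤ √t := Real.le_sqrt_of_sq_le (by linarith)
    have s1 : √t * √t = (t : ℝ) := Real.mul_self_sqrt (by linarith)
    have l1 : Real.log t ≤ t / 500 := by
      have := Real.log_le_sub_one_of_pos (show 0 < √(t : ℝ) by linarith)
      rw [Real.log_sqrt (by linarith)] at this
      nlinarith
    have l0 : 0 < Real.log t := Real.log_pos (by linarith)
    have t7 : (t : ℝ) ≤ (t : ℝ) ^ 7 := le_self_pow₀ (by linarith) (by norm_num)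
    have l2 : Real.log ((t : ℝ) ^ 8 + 1) ≤ 9 * Real.log t := by
      rw [show (9 : ℝ) = (9 : ℕ) by norm_num, ← Real.log_pow]
      exact Real.log_le_log (by positivity) (by nlinarith [one_le_pow₀ (n := 8) (show (1 : ℝ) ≤ t by linarith)])
    push_cast at h
    rw [Real.log_pow, div_le_iff₀ (by positivity)] at h
    have l3 := Real.log_two_gt_d9
    by_contra hc
    have hc' : (Nat.primeCounting (t ^ 8) : ℝ) ≤ 5 * (t : ℝ) ^ 7 := by exact_mod_cast (by omega)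
    have e8 : (t : ℝ) ^ 8 = t ^ 7 * t := by ring
    have := mul_le_mul hc' (mul_le_mul_of_nonneg_left l1 (show (0 : ℝ) ≤ (8 : ℕ) by norm_num))
      (by positivity) (by positivity)
    push_cast at this h
    nlinarith [mul_pos (show (0 : ℝ) < t ^ 7 by linarith) (show (0 : ℝ) < t by linarith)]
  let U := (range (t ^ 8 + 1)).filter fun p => p.Prime ∧ t ^ 7 < p
  have hU : 4 * t ^ 7 ≤ U.card := by
    have h1 : (range (t ^ 8 + 1)).filter Nat.Prime ⊆ U ∪ range (t ^ 7 + 1) := fun p hp => by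
      simp only [U, mem_union, mem_filter, mem_range] at hp ⊢
      by_cases h : t ^ 7 < p
      · exact Or.inl ⟨hp.1, hp.2, h⟩
      · exact Or.inr (by omega)
    have h2 := (card_le_card h1).trans (card_union_le _ _)
    rw [card_range, ← Nat.count_eq_card_filter_range] at h2
    rw [Nat.primeCounting, Nat.primeCounting'] at hπ
    omega
  obtain ⟨r, -, hr⟩ := exists_le_card_fiber_of_mul_le_card_of_maps_to (s := U) (t := range 4)
    (f := fun p => p % 4) (n := t ^ 7) (fun p _ => mem_range.mpr (Nat.mod_lt _ (by norm_num)))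
    (by simp) (by simpa using hU)
  refine ⟨_, r, hr, fun p hp => ?_⟩
  simp only [U, mem_filter, mem_range] at hp
  exact ⟨hp.1.2.1, hp.1.2.2, by omega, hp.2⟩

lemma few_divisors (S : Finset ℕ) (hS : ∀ p ∈ S, p.Prime) (y m : ℕ) (h0 : 1 ≤ y) (hy : y ≤ 2 ^ m) :
    (S.filter (· ∣ y)).card ≤ m := by
  have h1 : S.filter (· ∣ y) ⊆ y.primeFactors := fun p hp =>
    Nat.mem_primeFactors.mpr ⟨hS p (mem_filter.mp hp).1, (mem_filter.mp hp).2, by omega⟩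
  have h2 := pow_card_le_prod y.primeFactors (fun p => p) 2 fun p hp =>
    (Nat.prime_of_mem_primeFactors hp).two_le
  have h3 := Nat.le_of_dvd h0 (Nat.prod_primeFactors_dvd y)
  exact (card_le_card h1).trans ((Nat.pow_le_pow_iff_right (by norm_num)).mp
    (h2.trans (h3.trans hy)))

lemma count_ok (t k w : ℕ) (ht : 10 ^ 6 ≤ t) (hk : t ^ 7 ≤ k) (hw : w ≤ 2 * t) :
    2 * (t ^ 8) ^ 2 * w.choose 2 + 1 ≤ t ^ 7 * (k - w).choose 2 := by
  have h1 : w.choose 2 ≤ (2 * t) ^ 2 := (Nat.choose_le_pow w 2).trans (Nat.pow_le_pow_left hw 2)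
  have t1 : 1 ≤ t := by omega
  have h2 : 3 * t ^ 6 + 1 ≤ k - w := by
    have a : t ≤ t ^ 6 := Nat.le_self_pow (by norm_num) t
    have b : 6 * t ^ 6 ≤ t ^ 7 := by rw [pow_succ' t 6]; exact Nat.mul_le_mul_right _ (by omega)
    omega
  have h3 : t ^ 12 * 4 ≤ (3 * t ^ 6 + 1).choose 2 := by
    rw [Nat.choose_two_right, Nat.le_div_iff_mul_le (by norm_num), Nat.add_sub_cancel]
    nlinarith [Nat.zero_le (t ^ 6)]
  have h4 := h3.trans (Nat.choose_le_choose 2 h2)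
  have h5 : 1 ≤ t ^ 18 := Nat.one_le_pow _ _ t1
  calc _ ≤ 2 * (t ^ 8) ^ 2 * (2 * t) ^ 2 + t ^ 18 := by gcongr
    _ = t ^ 18 * 9 := by ring
    _ ≤ t ^ 18 * (t * 4) := by gcongr; omega
    _ = t ^ 7 * (t ^ 12 * 4) := by ring
    _ ≤ _ := by gcongr

theorem main : ∃ t0 : ℕ, ∀ t ≥ t0, ∀ ε : ℝ, ε * (32 * (t : ℝ) ^ 80) < 1 →
    ∃ (A : Finset ℕ) (c : ℝ), 0 < c ∧ c + ε * ((2 ^ t) ^ 4 : ℕ) + ((2 ^ t) ^ 4 : ℕ) / 4 ≤
      ((range ((2 ^ t) ^ 4)).filter fun x => x ∈ A).card ∧ ∀ y ∈ Icc 1 ((2 ^ t) ^ 2),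
      (((range ((2 ^ t) ^ 4)).filter fun x => x ∈ A ∧ x + y ^ 2 ∈ A).card : ℝ) < c := by
  obtain ⟨t1, h1⟩ := Filter.eventually_atTop.mp ((tendsto_pow_const_div_const_pow_of_one_lt 224
    (show (1 : ℝ) < 2 by norm_num)).eventually (gt_mem_nhds (show (0 : ℝ) < 1 / 704 by norm_num)))
  refine ⟨max t1 (10 ^ 6), fun t ht ε hε => ?_⟩
  have ht6 : 10 ^ 6 ≤ t := le_of_max_le_right ht
  obtain ⟨S, r, hk, hS⟩ := many_primes t ht6
  refine core (S := S) (P := t ^ 8) (T := t ^ 7) (r := r)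
    ((show 2 ≤ t by omega).trans (Nat.le_self_pow (by norm_num) t))
    (Nat.pow_le_pow_right (by omega) (by norm_num)) hS (2 ^ t) ?_ (fun y hy => ?_) ε ?_
  · have := h1 t (le_of_max_le_left ht)
    rw [div_lt_div_iff₀ (by positivity) (by norm_num)] at this
    have h2 : 704 * ((t : ℝ) ^ 8) ^ 28 ≤ 2 ^ t := by
      rw [← pow_mul, show 8 * 28 = 224 from rfl]
      linarith
    exact_mod_cast h2
  · rw [mem_Icc, ← pow_mul] at hy
    exact count_ok t _ _ ht6 hk (by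
      have := few_divisors S (fun p hp => (hS p hp).1) y _ hy.1 hy.2
      omega)
  · push_cast
    rwa [← pow_mul]

end Pool.Agent.H.MP_071fc1_co
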